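import Pool.Agent.Q28.MD.Defs
import Pool.Agent.Q28.MC.D
import Pool.Agent.Q28.MC.Transfer

/-!
# Murre's conjecture (D) from one decomposition of the square: the proof
-/

open CategoryTheory AlgebraicGeometry

universe u v w

namespace Pool.Agent.Q28.MD

open Pool.Agent.H914 Pool.Agent.W492.BB Pool.Agent.TH133 Pool.Agent.W550.Corr

set_option linter.unusedSectionVars false

variable {k : Type u} [Field k] {𝒱 : VarClass k} {C : TheoryData.{u, v, 0} 𝒱 ℚ}
  [hC : IsChowProj C] {K : Type w} [Field K] {H : WeilTheoryData.{u, v, w} C K}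
  [hH : IsWeilProj H] {X : 𝒱.Obj}

include hC hH

lemma sat_iff {π : ℕ → C.A (X.prod X)} (h : IsCK H X π) :
    SatisfiesDAt H (squareCK π) X.dim ↔ KernelLowers H π := MC.satisfiesDAt_square_iff h

lemma low_iff {π : ℕ → C.A (X.prod X)} (h : IsCK H X π) :
    KernelLowers H π ↔ NeverRaises π ∧ FaithfulOnParts H π :=
  ⟨fun hL => ⟨((MC.universalC_iff h).1 (MC.universal_of_lowers h hL)).1,
    MC.faithful_of_lowers h hL⟩, fun h1 => MC.lowers_of h h1.1 h1.2⟩

lemma consequences {π : ℕ → C.A (X.prod X)} (h : IsCK H X π) (hL : KernelLowers H π) :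
    MurreD H X ∧ MurreB0 H X ∧ MurreC H X ∧
      (∀ π', IsCK H X π' → SatisfiesDAt H (squareCK π') X.dim) ∧
      NilpotentOfIndex H X (2 * X.dim + 1) :=
  ⟨MC.murreD_of_lowers h hL, MC.murreB0_of_lowers h hL,
    MC.murreC_of_universal (MC.universal_of_lowers h hL),
    fun _ h' => (sat_iff h').2 (MC.kernelLowers_all h hL h'),
    MC.nilpotentOfIndex_of_lowers h hL⟩

omit hC hH in
theorem main (C : TheoryData.{u, v, 0} 𝒱 ℚ)
    [IsChowProj C] {K : Type w} [Field K] (H : WeilTheoryData.{u, v, w} C K) [IsWeilProj H] :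
    (∀ (X : 𝒱.Obj) (π : ℕ → C.A (X.prod X)), IsCK H X π →
      (SatisfiesDAt H (squareCK π) X.dim ↔ KernelLowers H π) ∧
      (SatisfiesDAt H (squareCK π) X.dim ↔ NeverRaises π ∧ FaithfulOnParts H π) ∧
      (SatisfiesDAt H (squareCK π) X.dim → MurreD H X ∧ MurreB0 H X ∧ MurreC H X ∧
        (∀ π', IsCK H X π' → SatisfiesDAt H (squareCK π') X.dim) ∧
        NilpotentOfIndex H X (2 * X.dim + 1))) ∧
    (∀ X : 𝒱.Obj, (MurreD H X → ∀ π, IsCK H X π → PhantomsActTrivially H π) ∧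
      ∀ i : ℕ, NoIdempotentActionAt H X i → ∀ π π', IsCK H X π → IsCK H X π' →
        SatisfiesDAt H π i → SatisfiesDAt H π' i) ∧
    (∀ F : 𝒱.Obj → Prop, (∀ X, F X → F (X.prod X)) → (∀ X, F X → ∃ π, IsCK H X π) →
      ((∀ X, F X → MurreD H X) ↔
        ∀ X, F X → ∃ π, IsCK H X π ∧ SatisfiesDAt H (squareCK π) X.dim) ∧
      ((∀ X, F X → MurreD H X) ↔
        ∀ X, F X → MurreB0 H X ∧ ∃ π, IsCK H X π ∧ FaithfulOnParts H π)) := by
  refine ⟨fun X π h => ⟨sat_iff h, (sat_iff h).trans (low_iff h),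
    fun hD => consequences h ((sat_iff h).1 hD)⟩,
    fun X => ⟨fun hD π h => MC.phantoms_of_D hD h,
      fun i hN π π' h h' hD => MC.satisfiesDAt_transfer hN h h' hD⟩, ?_⟩
  intro F hF hCK
  have hD1 : (∀ X, F X → MurreD H X) →
      ∀ X, F X → ∃ π, IsCK H X π ∧ SatisfiesDAt H (squareCK π) X.dim := by
    intro hD X hX
    obtain ⟨π, h⟩ := hCK X hX
    exact ⟨π, h, fun x hx h0 => (hD _ (hF X hX) _ (h.dual.prod h) X.dim x).2 ⟨hx, h0⟩⟩
  constructor
  · refine ⟨hD1, fun h1 X hX => ?_⟩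
    obtain ⟨π, h, hD⟩ := h1 X hX
    exact (consequences h ((sat_iff h).1 hD)).1
  · constructor
    · intro hD X hX
      obtain ⟨π, h, h1⟩ := hD1 hD X hX
      have hL := (sat_iff h).1 h1
      exact ⟨(consequences h hL).2.1, π, h, ((low_iff h).1 hL).2⟩
    · intro h1 X hX
      obtain ⟨_, π, h, hf⟩ := h1 X hX
      exact (consequences h (MC.lowers_of_B0At h (h1 _ (hF X hX)).1 hf)).1

end Pool.Agent.Q28.MD
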