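import Pool.Agent.TH133.Defs

/-!
# Murre's conjecture (D) from one decomposition of the square: definitions
-/

open CategoryTheory AlgebraicGeometry

universe u v w

namespace Pool.Agent.Q28.MD

open Pool.Agent.H914 Pool.Agent.H914.VarClass Pool.Agent.H914.VarClass.Obj Pool.Agent.W492.BB
  Pool.Agent.W550.Corr Pool.Agent.TH133

variable {k : Type u} [Field k] {𝒱 : VarClass k} {C : TheoryData.{u, v, 0} 𝒱 ℚ} {X : 𝒱.Obj}

/-- The Chow-Kunneth decomposition `π^t × π` of `X × X`, where `π` is a Chow-Kunneth decomposition of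
`X`: the `n`-th projector is the sum of the external products of the transpose of
`π (2 dim X - i)` and of `π (n - i)`. -/
noncomputable def squareCK (π : ℕ → C.A (X.prod X)) : ℕ → C.A ((X.prod X).prod (X.prod X)) :=
  fun n => ∑ i ∈ Finset.range (n + 1),
    C.pull (prodMap (fst X X) (fst X X)) (if i ≤ 2 * X.dim then tp C (π (2 * X.dim - i)) else 0) *
      C.pull (prodMap (snd X X) (snd X X)) (π (n - i))

/-- There is no non-zero morphism from `h^a(X)` to `h^b(X)` for `a < b`, where `h^i(X)` are the
summands of the Chow motive of `X` given by the one Chow-Kunneth decomposition `π`: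
`π_b ∘ γ ∘ π_a = 0` for all self-correspondences `γ` of degree zero. -/
def NeverRaises (π : ℕ → C.A (X.prod X)) : Prop :=
  ∀ γ : C.A (X.prod X), C.Deg X.dim γ → ∀ a b : ℕ, a < b → C.comp (C.comp (π a) γ) (π b) = 0

variable {K : Type w} [Field K] (H : WeilTheoryData.{u, v, w} C K)

/-- Murre's condition (D) for the one Chow-Kunneth decomposition `π` of `X` in the one codimension
`i`: the homologically trivial classes in `CH^i(X)` lie in `F^1 CH^i(X)` (the converse is clear). -/
def SatisfiesDAt (π : ℕ → C.A (X.prod X)) (i : ℕ) : Prop :=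
  ∀ x : C.A X, C.Deg i x → H.cl x = 0 → x ∈ ckFil C π i 1

/-- Homologically trivial self-correspondences `γ` of degree zero of `X` strictly lower the weights of
the one Chow-Kunneth decomposition `π`: `π_b ∘ γ ∘ π_a = 0` for `a ≤ b`. -/
def KernelLowers (π : ℕ → C.A (X.prod X)) : Prop :=
  ∀ γ : C.A (X.prod X), C.Deg X.dim γ → H.cl γ = 0 → ∀ a b : ℕ, a ≤ b →
    C.comp (C.comp (π a) γ) (π b) = 0

/-- The maps `End(h^a(X)) → End(H^a(X))` are injective, where `h^a(X)` are the summands of the
motive of `X` given by the one Chow-Kunneth decomposition `π`. -/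
def FaithfulOnParts (π : ℕ → C.A (X.prod X)) : Prop :=
  ∀ (γ : C.A (X.prod X)) (a : ℕ), C.Deg X.dim γ → H.cl (C.comp (C.comp (π a) γ) (π a)) = 0 →
    C.comp (C.comp (π a) γ) (π a) = 0

/-- Phantom summands of the motives `h^a(X)` given by the Chow-Kunneth decomposition `π`, that is,
homologically trivial idempotents `q` of degree zero with `q ∘ π_a = π_a ∘ q = q`, act as zero on the
Chow groups of `X`. -/
def PhantomsActTrivially (π : ℕ → C.A (X.prod X)) : Prop :=
  ∀ (a : ℕ) (q : C.A (X.prod X)), C.Deg X.dim q → C.comp q q = q → H.cl q = 0 →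
    C.comp q (π a) = q → C.comp (π a) q = q → ∀ x : C.A X, C.act q x = 0

/-- No homologically trivial self-correspondence `γ` of `X` of degree zero acts as a non-zero
idempotent on `CH^i(X)`. This holds if all such `γ` are nilpotent. -/
def NoIdempotentActionAt (X : 𝒱.Obj) (i : ℕ) : Prop :=
  ∀ γ : C.A (X.prod X), C.Deg X.dim γ → H.cl γ = 0 →
    (∀ x : C.A X, C.Deg i x → C.act γ (C.act γ x) = C.act γ x) →
    ∀ x : C.A X, C.Deg i x → C.act γ x = 0

end Pool.Agent.Q28.MD
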